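import Pool.Agent.N393.ChromInj

set_option autoImplicit false

/-! Proper colourings in which a set `S` avoids a fixed colour. -/

namespace Pool.Agent.N393.Chrom

open Finset

section col

variable {V C : Type} [Fintype V] [DecidableEq V] [Fintype C] [DecidableEq C]

open Classical in
/-- proper colourings with no vertex of `S` coloured `c` -/
noncomputable def Av (G : SimpleGraph V) (S : Finset V) (c : C) : Finset (V → C) :=
  Finset.univ.filter (fun φ => (∀ v w, G.Adj v w → φ v ≠ φ w) ∧ ∀ v ∈ S, φ v ≠ c)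

lemma mem_Av (G : SimpleGraph V) (S : Finset V) (c : C) (φ : V → C) :
    φ ∈ Av G S c ↔ (∀ v w, G.Adj v w → φ v ≠ φ w) ∧ ∀ v ∈ S, φ v ≠ c := by
  simp [Av]

/-- the restriction of `φ` to `S` together with the kernel of `φ` outside `S` -/
def key (S : Finset V) (φ : V → C) : (V → Option C) × (V → V → Bool) :=
  (fun v => if v ∈ S then some (φ v) else none,
   fun v w => if v ∉ S ∧ w ∉ S then decide (φ v = φ w) else false)

lemma key_eq_iff (S : Finset V) (φ ψ : V → C) :
    key S φ = key S ψ ↔ (∀ v ∈ S, φ v = ψ v) ∧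
      ∀ v w, v ∉ S → w ∉ S → (φ v = φ w ↔ ψ v = ψ w) := by
  unfold key
  rw [Prod.mk.injEq]
  constructor
  · rintro ⟨h1, h2⟩
    refine ⟨?_, ?_⟩
    · intro v hv
      have := congrFun h1 v
      simpa [hv] using this
    · intro v w hv hw
      have := congrFun (congrFun h2 v) w
      simpa [hv, hw] using this
  · rintro ⟨h1, h2⟩
    refine ⟨?_, ?_⟩
    · funext v
      by_cases hv : v ∈ S
      · simp [hv, h1 v hv]
      · simp [hv]
    · funext v w
      by_cases hv : v ∈ S
      · simp [hv]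
      · by_cases hw : w ∈ S
        · simp [hw]
        · simp [hv, hw, h2 v w hv hw]

/-- extension of a block injection to a colouring -/
def ext (S : Finset V) (φ0 : V → C) (τ : {x : C // x ∈ (Sᶜ).image φ0} → C) : V → C :=
  fun v => if h : v ∈ S then φ0 v else
    τ ⟨φ0 v, Finset.mem_image_of_mem _ (by simpa using h)⟩

lemma ext_mem (S : Finset V) (φ0 : V → C) (τ : {x : C // x ∈ (Sᶜ).image φ0} → C) (v : V)
    (h : v ∈ S) : ext S φ0 τ v = φ0 v := by simp [ext, h]

lemma ext_notMem (S : Finset V) (φ0 : V → C) (τ : {x : C // x ∈ (Sᶜ).image φ0} → C) (v : V)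
    (h : v ∉ S) : ext S φ0 τ v = τ ⟨φ0 v, Finset.mem_image_of_mem _ (by simpa using h)⟩ := by
  simp [ext, h]

open Classical in
/-- allowed colours of a block -/
noncomputable def alw (G : SimpleGraph V) (S : Finset V) (φ0 : V → C)
    (x : {x : C // x ∈ (Sᶜ).image φ0}) : Finset C :=
  Finset.univ.filter (fun y => ∀ v, v ∉ S → φ0 v = x.1 → ∀ w ∈ S, G.Adj v w → φ0 w ≠ y)

lemma fib_eq (G : SimpleGraph V) (S : Finset V) (c : C) (φ0 : V → C) (h0 : φ0 ∈ Av G S c) :
    (Av G S c).filter (fun φ => key S φ = key S φ0) = (Om (alw G S φ0)).image (ext S φ0) := by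
  classical
  rw [mem_Av] at h0
  obtain ⟨hp0, hc0⟩ := h0
  ext φ
  rw [Finset.mem_filter, mem_Av, key_eq_iff, Finset.mem_image]
  constructor
  · rintro ⟨⟨hp, hc⟩, hS, hR⟩
    -- the block map
    have hex : ∀ x : {x : C // x ∈ (Sᶜ).image φ0}, ∃ v, v ∉ S ∧ φ0 v = x.1 := by
      rintro ⟨x, hx⟩
      rw [Finset.mem_image] at hx
      obtain ⟨v, hv, rfl⟩ := hx
      exact ⟨v, by simpa using hv, rfl⟩
    choose g hg1 hg2 using hex
    have hval : ∀ v (hv : v ∉ S), φ (g ⟨φ0 v, Finset.mem_image_of_mem _ (by simpa using hv)⟩)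
        = φ v := by
      intro v hv
      rw [hR _ _ (hg1 _) hv]
      exact hg2 _
    refine ⟨fun x => φ (g x), ?_, ?_⟩
    · rw [mem_Om]
      refine ⟨?_, ?_⟩
      · intro x y hxy
        have : φ0 (g x) = φ0 (g y) := (hR _ _ (hg1 x) (hg1 y)).1 hxy
        rw [hg2, hg2] at this
        exact Subtype.ext this
      · intro x
        simp only [alw, Finset.mem_filter, Finset.mem_univ, true_and]
        intro v hv hvx w hw hadj
        have h1 : φ v = φ (g x) := by
          rw [hR v (g x) hv (hg1 x), hg2, hvx]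
        rw [← h1, ← hS w hw]
        exact (hp v w hadj).symm
    · funext v
      by_cases hv : v ∈ S
      · rw [ext_mem _ _ _ _ hv, hS v hv]
      · rw [ext_notMem _ _ _ _ hv]
        exact hval v hv
  · rintro ⟨τ, hτ, rfl⟩
    rw [mem_Om] at hτ
    obtain ⟨hinj, hal⟩ := hτ
    have hal' : ∀ v (hv : v ∉ S), ∀ w ∈ S, G.Adj v w →
        φ0 w ≠ τ ⟨φ0 v, Finset.mem_image_of_mem _ (by simpa using hv)⟩ := by
      intro v hv w hw hadj
      have := hal ⟨φ0 v, Finset.mem_image_of_mem _ (by simpa using hv)⟩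
      simp only [alw, Finset.mem_filter, Finset.mem_univ, true_and] at this
      exact this v hv rfl w hw hadj
    refine ⟨⟨?_, ?_⟩, ?_, ?_⟩
    · intro v w hadj
      by_cases hv : v ∈ S
      · by_cases hw : w ∈ S
        · rw [ext_mem _ _ _ _ hv, ext_mem _ _ _ _ hw]; exact hp0 v w hadj
        · rw [ext_mem _ _ _ _ hv, ext_notMem _ _ _ _ hw]
          exact hal' w hw v hv hadj.symm
      · by_cases hw : w ∈ S
        · rw [ext_mem _ _ _ _ hw, ext_notMem _ _ _ _ hv]
          exact (hal' v hv w hw hadj).symm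
        · rw [ext_notMem _ _ _ _ hv, ext_notMem _ _ _ _ hw]
          intro h
          have := hinj h
          rw [Subtype.mk.injEq] at this
          exact hp0 v w hadj this
    · intro v hv
      rw [ext_mem _ _ _ _ hv]; exact hc0 v hv
    · intro v hv
      exact ext_mem _ _ _ _ hv
    · intro v w hv hw
      rw [ext_notMem _ _ _ _ hv, ext_notMem _ _ _ _ hw]
      constructor
      · intro h
        have := hinj h
        rwa [Subtype.mk.injEq] at this
      · intro h
        congr 1
        exact Subtype.ext h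

lemma ext_injOn (S : Finset V) (φ0 : V → C) : Function.Injective (ext S φ0) := by
  intro τ τ' h
  funext ⟨x, hx⟩
  have hx' := hx
  rw [Finset.mem_image] at hx'
  obtain ⟨v, hv, hvx⟩ := hx'
  have hv' : v ∉ S := by simpa using hv
  have := congrFun h v
  rw [ext_notMem _ _ _ _ hv', ext_notMem _ _ _ _ hv'] at this
  subst hvx
  exact this

lemma fib_ineq (G : SimpleGraph V) (S : Finset V) (c : C) (φ0 : V → C) (h0 : φ0 ∈ Av G S c)
    (hle : (Sᶜ).card ≤ Fintype.card C) :
    ((Sᶜ).card : ℤ) * ((Av G S c).filter (fun φ => key S φ = key S φ0)).card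
      ≤ (Fintype.card C : ℤ) * ∑ v ∈ Sᶜ,
        ((((Av G S c).filter (fun φ => key S φ = key S φ0)).filter (fun φ => φ v = c)).card : ℤ)
        := by
  classical
  rw [fib_eq G S c φ0 h0]
  have hcard : ((Om (alw G S φ0)).image (ext S φ0)).card = (Om (alw G S φ0)).card :=
    Finset.card_image_of_injective _ (ext_injOn S φ0)
  rw [hcard]
  rw [mem_Av] at h0
  obtain ⟨hp0, hc0⟩ := h0
  set w : {x : C // x ∈ (Sᶜ).image φ0} → ℕ := fun x => ((Sᶜ).filter (fun v => φ0 v = x.1)).card
    with hw
  have hw1 : ∀ i, 1 ≤ w i := by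
    rintro ⟨x, hx⟩
    have hx' := hx
    rw [Finset.mem_image] at hx'
    obtain ⟨v, hv, hvx⟩ := hx'
    rw [hw]
    simp only
    rw [Nat.one_le_iff_ne_zero, ← Nat.pos_iff_ne_zero, Finset.card_pos]
    exact ⟨v, Finset.mem_filter.2 ⟨hv, hvx⟩⟩
  have hwsum : ∑ i, w i = (Sᶜ).card := by
    rw [Finset.card_eq_sum_card_image φ0 (Sᶜ)]
    exact Finset.sum_coe_sort ((Sᶜ).image φ0) (fun x => ((Sᶜ).filter (fun v => φ0 v = x)).card)
  have hT : ∀ (i : {x : C // x ∈ (Sᶜ).image φ0}) (x : C), x ∉ S.image φ0 → x ∈ alw G S φ0 i := by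
    intro i x hx
    simp only [alw, Finset.mem_filter, Finset.mem_univ, true_and]
    intro v _ _ u hu _ h
    exact hx (h ▸ Finset.mem_image_of_mem _ hu)
  have hc : c ∉ S.image φ0 := by
    intro h
    rw [Finset.mem_image] at h
    obtain ⟨v, hv, hvc⟩ := h
    exact hc0 v hv hvc
  have hkey := key_inj (alw G S φ0) (S.image φ0) hT w hw1 (by rw [hwsum]; exact hle) c hc
  have hws' : (∑ i, (w i : ℤ)) = ((Sᶜ).card : ℤ) := by
    rw [← hwsum]; push_cast; rfl
  rw [hws'] at hkey
  refine le_trans hkey (le_of_eq ?_)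
  congr 1
  -- compare the two sums
  set F : C → ℤ := fun x => if h : x ∈ (Sᶜ).image φ0 then (NN (alw G S φ0) ⟨x, h⟩ c : ℤ) else 0
    with hF
  have hL : ∑ i : {x : C // x ∈ (Sᶜ).image φ0}, (w i : ℤ) * NN (alw G S φ0) i c
      = ∑ x ∈ (Sᶜ).image φ0, (((Sᶜ).filter (fun v => φ0 v = x)).card : ℤ) * F x := by
    rw [← Finset.sum_coe_sort ((Sᶜ).image φ0)
      (fun x => (((Sᶜ).filter (fun v => φ0 v = x)).card : ℤ) * F x)]
    refine Finset.sum_congr rfl ?_
    rintro ⟨x, hx⟩ _
    simp only [hw, hF]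
    rw [dif_pos hx]
  have hR : ∑ v ∈ Sᶜ, F (φ0 v)
      = ∑ x ∈ (Sᶜ).image φ0, (((Sᶜ).filter (fun v => φ0 v = x)).card : ℤ) * F x := by
    rw [Finset.sum_comp F φ0]
    refine Finset.sum_congr rfl ?_
    intro x _
    rw [nsmul_eq_mul]
  rw [hL, ← hR]
  refine Finset.sum_congr rfl ?_
  intro v hv
  have hv' : v ∉ S := by simpa using hv
  have hmem : φ0 v ∈ (Sᶜ).image φ0 := Finset.mem_image_of_mem _ hv
  rw [hF]
  simp only [hmem, dif_pos]
  unfold NN
  rw [Finset.filter_image, Finset.card_image_of_injective _ (ext_injOn S φ0)]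
  congr 2
  ext τ
  simp only [Finset.mem_filter]
  rw [ext_notMem _ _ _ _ hv']

/-- among proper colourings in which `S` avoids `c`, the colour `c` is used on the complement
of `S` at least as often as an average colour -/
lemma avg_ineq (G : SimpleGraph V) (S : Finset V) (c : C)
    (hle : (Sᶜ).card ≤ Fintype.card C) :
    ((Sᶜ).card : ℤ) * (Av G S c).card
      ≤ (Fintype.card C : ℤ) * ∑ v ∈ Sᶜ, (((Av G S c).filter (fun φ => φ v = c)).card : ℤ) := by
  classical
  have h1 : ((Av G S c).card : ℤ)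
      = ∑ κ ∈ (Av G S c).image (key S), (((Av G S c).filter (fun φ => key S φ = κ)).card : ℤ) := by
    rw [Finset.card_eq_sum_card_image (key S) (Av G S c)]
    push_cast
    rfl
  have h2 : ∀ v, (((Av G S c).filter (fun φ => φ v = c)).card : ℤ)
      = ∑ κ ∈ (Av G S c).image (key S),
        ((((Av G S c).filter (fun φ => key S φ = κ)).filter (fun φ => φ v = c)).card : ℤ) := by
    intro v
    rw [Finset.card_eq_sum_card_fiberwise (f := key S) (t := (Av G S c).image (key S))]
    · push_cast
      refine Finset.sum_congr rfl ?_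
      intro κ _
      rw [Finset.filter_filter, Finset.filter_filter]
      congr 2
      ext φ
      rw [Finset.mem_filter, Finset.mem_filter, and_comm (a := φ v = c)]
    · intro φ hφ
      rw [Finset.mem_coe, Finset.mem_filter] at hφ
      exact Finset.mem_coe.2 (Finset.mem_image_of_mem _ hφ.1)
  rw [h1, Finset.mul_sum]
  simp only [h2]
  rw [Finset.sum_comm, Finset.mul_sum]
  refine Finset.sum_le_sum ?_
  intro κ hκ
  rw [Finset.mem_image] at hκ
  obtain ⟨φ0, h0, rfl⟩ := hκ
  exact fib_ineq G S c φ0 h0 hle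

lemma Av_insert_card (G : SimpleGraph V) (S : Finset V) (c : C) (v : V) :
    (Av G (insert v S) c).card + ((Av G S c).filter (fun φ => φ v = c)).card
      = (Av G S c).card := by
  classical
  have h := Finset.card_filter_add_card_filter_not (s := Av G S c) (p := fun φ => φ v = c)
  rw [← h, add_comm]
  congr 2
  ext φ
  rw [mem_Av, Finset.mem_filter, mem_Av]
  simp only [Finset.mem_insert, forall_eq_or_imp]
  tauto

/-- one step: some vertex outside `S` is coloured `c` with conditional probability at least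
`1 / |C|` -/
lemma step (G : SimpleGraph V) (S : Finset V) (c : C) (hne : (Sᶜ).Nonempty)
    (hle : (Sᶜ).card ≤ Fintype.card C) :
    ∃ v ∈ Sᶜ, (Fintype.card C : ℤ) * (Av G (insert v S) c).card
      ≤ ((Fintype.card C : ℤ) - 1) * (Av G S c).card := by
  classical
  by_contra hcon
  push Not at hcon
  have h1 : ∀ v ∈ Sᶜ, (Fintype.card C : ℤ) * (((Av G S c).filter (fun φ => φ v = c)).card : ℤ)
      < (Av G S c).card := by
    intro v hv
    have h2 := hcon v hv
    have h3 : ((Av G (insert v S) c).card : ℤ) + ((Av G S c).filter (fun φ => φ v = c)).card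
      = (Av G S c).card := by exact_mod_cast Av_insert_card G S c v
    nlinarith [h2, h3]
  have h2 := Finset.sum_lt_sum_of_nonempty hne h1
  rw [← Finset.mul_sum, Finset.sum_const, nsmul_eq_mul] at h2
  have h3 := avg_ineq G S c hle
  linarith

lemma chain (G : SimpleGraph V) (c : C) (m : ℕ) : ∀ (S : Finset V), (Sᶜ).card = m →
    m ≤ Fintype.card C →
    (Fintype.card C : ℤ) ^ m * (Av G Finset.univ c).card
      ≤ ((Fintype.card C : ℤ) - 1) ^ m * (Av G S c).card := by
  classical
  induction m with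
  | zero =>
    intro S hS _
    have : S = Finset.univ := by
      rw [Finset.card_eq_zero, Finset.compl_eq_empty_iff] at hS
      exact hS
    rw [this]; simp
  | succ m ih =>
    intro S hS hm
    have hne : (Sᶜ).Nonempty := by
      rw [← Finset.card_pos, hS]; omega
    obtain ⟨v, hv, hstep⟩ := step G S c hne (by rw [hS]; exact hm)
    have hv' : v ∉ S := by simpa using hv
    have hcard : ((insert v S)ᶜ).card = m := by
      rw [Finset.card_compl, Finset.card_insert_of_notMem hv']
      rw [Finset.card_compl] at hS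
      omega
    have ih' := ih (insert v S) hcard (by omega)
    have hC1 : (1 : ℤ) ≤ Fintype.card C := by
      have : 1 ≤ Fintype.card C := by omega
      exact_mod_cast this
    have hL : (0 : ℤ) ≤ (Fintype.card C : ℤ) := by linarith
    calc (Fintype.card C : ℤ) ^ (m + 1) * (Av G Finset.univ c).card
        = (Fintype.card C : ℤ) * ((Fintype.card C : ℤ) ^ m * (Av G Finset.univ c).card) := by ring
      _ ≤ (Fintype.card C : ℤ) * (((Fintype.card C : ℤ) - 1) ^ m * (Av G (insert v S) c).card) :=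
          mul_le_mul_of_nonneg_left ih' hL
      _ = ((Fintype.card C : ℤ) - 1) ^ m * ((Fintype.card C : ℤ) * (Av G (insert v S) c).card) := by
          ring
      _ ≤ ((Fintype.card C : ℤ) - 1) ^ m * (((Fintype.card C : ℤ) - 1) * (Av G S c).card) :=
          mul_le_mul_of_nonneg_left hstep (pow_nonneg (by linarith) _)
      _ = ((Fintype.card C : ℤ) - 1) ^ (m + 1) * (Av G S c).card := by ring

/-- symmetry of the colours -/
lemma sym_colour (G : SimpleGraph V) (v : V) (c x : C) :
    ((Av G ∅ c).filter (fun φ => φ v = x)).card ≤ ((Av G ∅ c).filter (fun φ => φ v = c)).card := by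
  classical
  refine Finset.card_le_card_of_injOn (fun φ => (Equiv.swap x c) ∘ φ) ?_ ?_
  · intro φ hφ
    rw [Finset.mem_coe, Finset.mem_filter, mem_Av] at hφ
    rw [Finset.mem_coe, Finset.mem_filter, mem_Av]
    obtain ⟨⟨hp, _⟩, hv⟩ := hφ
    refine ⟨⟨?_, by simp⟩, ?_⟩
    · intro a b hab h
      exact hp a b hab ((Equiv.swap x c).injective h)
    · simp only [Function.comp]
      rw [hv, Equiv.swap_apply_left]
  · intro φ _ ψ _ h
    funext j
    exact (Equiv.swap x c).injective (congrFun h j)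

lemma sym_colour_sum (G : SimpleGraph V) (v : V) (c : C) :
    ((Av G ∅ c).card : ℤ) ≤ (Fintype.card C : ℤ) *
      ((Av G ∅ c).filter (fun φ => φ v = c)).card := by
  classical
  have h1 : (Av G ∅ c).card = ∑ x : C, ((Av G ∅ c).filter (fun φ => φ v = x)).card := by
    rw [Finset.card_eq_sum_card_fiberwise (f := fun φ => φ v) (t := Finset.univ)]
    intro φ _
    simp
  have h2 : ∑ x : C, ((Av G ∅ c).filter (fun φ => φ v = x)).card
      ≤ ∑ _x : C, ((Av G ∅ c).filter (fun φ => φ v = c)).card :=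
    Finset.sum_le_sum (fun x _ => sym_colour G v c x)
  rw [Finset.sum_const, smul_eq_mul, Finset.card_univ] at h2
  rw [h1]
  exact_mod_cast h2

lemma clique_start (G : SimpleGraph V) (K : Finset V) (hK : G.IsClique (K : Set V)) (c : C) :
    (Fintype.card C : ℤ) * (Av G K c).card
      ≤ ((Fintype.card C : ℤ) - K.card) * (Av G ∅ c).card := by
  classical
  -- colourings using c on K
  have h1 : (Av G ∅ c).card = (Av G K c).card
      + ((Av G ∅ c).filter (fun φ => ∃ v ∈ K, φ v = c)).card := by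
    have h := Finset.card_filter_add_card_filter_not (s := Av G (∅ : Finset V) c)
      (p := fun φ => ∃ v ∈ K, φ v = c)
    rw [← h, add_comm]
    congr 2
    ext φ
    rw [mem_Av, Finset.mem_filter, mem_Av]
    simp
  have h2 : ((Av G ∅ c).filter (fun φ => ∃ v ∈ K, φ v = c)).card
      = ∑ v ∈ K, ((Av G ∅ c).filter (fun φ => φ v = c)).card := by
    rw [← Finset.card_biUnion]
    · congr 1
      ext φ
      simp only [Finset.mem_filter, Finset.mem_biUnion]
      constructor
      · rintro ⟨h, v, hv, hc⟩; exact ⟨v, hv, h, hc⟩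
      · rintro ⟨v, hv, h, hc⟩; exact ⟨h, v, hv, hc⟩
    · intro v hv w hw hvw
      rw [Function.onFun, Finset.disjoint_left]
      intro φ h1 h2
      rw [Finset.mem_filter] at h1 h2
      rw [mem_Av] at h1
      exact h1.1.1 v w (hK hv hw hvw) (h1.2.trans h2.2.symm)
  have h3 : (K.card : ℤ) * (Av G ∅ c).card ≤ (Fintype.card C : ℤ) *
      ∑ v ∈ K, (((Av G ∅ c).filter (fun φ => φ v = c)).card : ℤ) := by
    rw [Finset.mul_sum, ← nsmul_eq_mul, ← Finset.sum_const]
    exact Finset.sum_le_sum (fun v _ => sym_colour_sum G v c)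
  have h1' : ((Av G ∅ c).card : ℤ) = (Av G K c).card
      + ((Av G ∅ c).filter (fun φ => ∃ v ∈ K, φ v = c)).card := by exact_mod_cast h1
  have h2' : (((Av G ∅ c).filter (fun φ => ∃ v ∈ K, φ v = c)).card : ℤ)
      = ∑ v ∈ K, (((Av G ∅ c).filter (fun φ => φ v = c)).card : ℤ) := by exact_mod_cast h2
  rw [← h2'] at h3
  nlinarith [h3, h1']

/-- the clique inequality for colour counts -/
theorem clique_count (G : SimpleGraph V) (K : Finset V) (hK : G.IsClique (K : Set V)) (c : C)
    (hle : (Kᶜ).card ≤ Fintype.card C) :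
    (Fintype.card C : ℤ) ^ ((Kᶜ).card + 1) * (Av G Finset.univ c).card
      ≤ ((Fintype.card C : ℤ) - 1) ^ (Kᶜ).card * (((Fintype.card C : ℤ) - K.card)
        * (Av G ∅ c).card) := by
  have h1 := chain G c (Kᶜ).card K rfl hle
  have h2 := clique_start G K hK c
  have hpos : 0 < Fintype.card C := Fintype.card_pos_iff.2 ⟨c⟩
  have hC1 : (1 : ℤ) ≤ Fintype.card C := by exact_mod_cast hpos
  calc (Fintype.card C : ℤ) ^ ((Kᶜ).card + 1) * (Av G Finset.univ c).card
      = (Fintype.card C : ℤ) * ((Fintype.card C : ℤ) ^ (Kᶜ).card * (Av G Finset.univ c).card) := by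
        ring
    _ ≤ (Fintype.card C : ℤ) * (((Fintype.card C : ℤ) - 1) ^ (Kᶜ).card * (Av G K c).card) :=
        mul_le_mul_of_nonneg_left h1 (by linarith)
    _ = ((Fintype.card C : ℤ) - 1) ^ (Kᶜ).card * ((Fintype.card C : ℤ) * (Av G K c).card) := by
        ring
    _ ≤ _ := mul_le_mul_of_nonneg_left h2 (pow_nonneg (by linarith) _)

end col

end Pool.Agent.N393.Chrom
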