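import Mathlib

set_option autoImplicit false

/-! Random restricted injections: the counting lemma behind the clique bound. -/

namespace Pool.Agent.N393.Chrom

open Finset

section inj

variable {ι C : Type} [Fintype ι] [DecidableEq ι] [Fintype C] [DecidableEq C]

/-- admissible injections -/
def Om (al : ι → Finset C) : Finset (ι → C) :=
  Finset.univ.filter (fun τ => Function.Injective τ ∧ ∀ i, τ i ∈ al i)

omit [DecidableEq ι] in
lemma mem_Om (al : ι → Finset C) (τ : ι → C) [DecidableEq ι] :
    τ ∈ Om al ↔ Function.Injective τ ∧ ∀ i, τ i ∈ al i := by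
  simp [Om]

/-- number of `j` with `τ j ∈ T` -/
def kk (T : Finset C) (τ : ι → C) : ℕ := (Finset.univ.filter (fun j => τ j ∈ T)).card

/-- colours outside `T` not used by `τ` -/
def freeAlt (T : Finset C) (τ : ι → C) : Finset C :=
  Finset.univ.filter (fun x => x ∉ T ∧ ∀ j, τ j ≠ x)

/-- colours of `T` not used by `τ` -/
def specAlt (T : Finset C) (τ : ι → C) : Finset C :=
  Finset.univ.filter (fun x => x ∈ T ∧ ∀ j, τ j ≠ x)

lemma card_specAlt (T : Finset C) (τ : ι → C) (h : Function.Injective τ) :
    (specAlt T τ).card + kk T τ = T.card := by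
  classical
  have h1 : ((Finset.univ.filter (fun j => τ j ∈ T)).image τ).card = kk T τ := by
    rw [Finset.card_image_of_injective _ h]; rfl
  have h2 : (Finset.univ.filter (fun j => τ j ∈ T)).image τ ⊆ T := by
    intro x hx
    simp only [Finset.mem_image, Finset.mem_filter, Finset.mem_univ, true_and] at hx
    obtain ⟨j, hj, rfl⟩ := hx
    exact hj
  have h3 : specAlt T τ = T \ (Finset.univ.filter (fun j => τ j ∈ T)).image τ := by
    ext x
    simp only [specAlt, Finset.mem_filter, Finset.mem_univ, true_and, Finset.mem_sdiff,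
      Finset.mem_image, not_exists, not_and]
    constructor
    · rintro ⟨hx, hj⟩
      exact ⟨hx, fun j _ => hj j⟩
    · rintro ⟨hx, hj⟩
      refine ⟨hx, fun j hjx => ?_⟩
      exact hj j (hjx ▸ hx) hjx
  rw [h3, ← h1]
  exact Finset.card_sdiff_add_card_eq_card h2

lemma card_freeAlt (T : Finset C) (τ : ι → C) (h : Function.Injective τ) :
    ((freeAlt T τ).card : ℤ) = (Fintype.card C : ℤ) - T.card - Fintype.card ι + kk T τ := by
  classical
  have e : freeAlt T τ = specAlt (Tᶜ) τ := by
    ext x; simp [freeAlt, specAlt]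
  have h1 := card_specAlt (Tᶜ) τ h
  have h2 : kk (Tᶜ) τ + kk T τ = Fintype.card ι := by
    have := Finset.card_filter_add_card_filter_not (s := (Finset.univ : Finset ι))
      (p := fun j => τ j ∈ T)
    simp only [Finset.card_univ] at this
    unfold kk
    rw [← this, add_comm]
    congr 2
    ext j; simp
  have h3 : (Tᶜ).card + T.card = Fintype.card C := by
    rw [Finset.card_compl_add_card]
  rw [e]
  have h1' : ((specAlt (Tᶜ) τ).card : ℤ) + kk (Tᶜ) τ = (Tᶜ).card := by exact_mod_cast h1
  have h2' : (kk (Tᶜ) τ : ℤ) + kk T τ = Fintype.card ι := by exact_mod_cast h2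
  have h3' : ((Tᶜ).card : ℤ) + T.card = Fintype.card C := by exact_mod_cast h3
  linarith

/-- number of admissible injections sending `i` into `T` -/
def MM (al : ι → Finset C) (T : Finset C) (i : ι) : ℕ :=
  ((Om al).filter (fun τ => τ i ∈ T)).card

/-- number of admissible injections sending `i` to `c` -/
def NN (al : ι → Finset C) (i : ι) (c : C) : ℕ :=
  ((Om al).filter (fun τ => τ i = c)).card

/-- the swap double count -/
lemma swap_count (al : ι → Finset C) (T : Finset C) (hT : ∀ i x, x ∉ T → x ∈ al i) (i : ι) :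
    ∑ τ ∈ (Om al).filter (fun τ => τ i ∈ T), (freeAlt T τ).card
      ≤ ∑ τ ∈ (Om al).filter (fun τ => τ i ∉ T), (specAlt T τ).card := by
  classical
  rw [← Finset.card_sigma, ← Finset.card_sigma]
  refine Finset.card_le_card_of_injOn
    (fun p => (⟨Function.update p.1 i p.2, p.1 i⟩ : (_ : ι → C) × C)) ?_ ?_
  · rintro ⟨τ, x⟩ hp
    simp only [Finset.coe_sigma, Set.mem_sigma_iff, Finset.mem_coe, Finset.mem_filter, mem_Om,
      freeAlt, Finset.mem_univ, true_and] at hp
    obtain ⟨⟨⟨hinj, hal⟩, hiT⟩, hx, hxj⟩ := hp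
    simp only [Finset.coe_sigma, Set.mem_sigma_iff, Finset.mem_coe, Finset.mem_filter, mem_Om,
      specAlt, Finset.mem_univ, true_and]
    refine ⟨⟨⟨?_, ?_⟩, ?_⟩, hiT, ?_⟩
    · intro a b hab
      by_cases ha : a = i
      · by_cases hb : b = i
        · rw [ha, hb]
        · subst ha
          rw [Function.update_self, Function.update_of_ne hb] at hab
          exact absurd hab.symm (hxj b)
      · by_cases hb : b = i
        · subst hb
          rw [Function.update_self, Function.update_of_ne ha] at hab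
          exact absurd hab (hxj a)
        · rw [Function.update_of_ne ha, Function.update_of_ne hb] at hab
          exact hinj hab
    · intro j
      by_cases hj : j = i
      · subst hj; rw [Function.update_self]; exact hT j x hx
      · rw [Function.update_of_ne hj]; exact hal j
    · rw [Function.update_self]; exact hx
    · intro j
      by_cases hj : j = i
      · subst hj; rw [Function.update_self]; intro h; exact hx (h ▸ hiT)
      · rw [Function.update_of_ne hj]; intro h; exact hj (hinj h)
  · rintro ⟨τ, x⟩ hp ⟨τ', x'⟩ hp' heq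
    simp only [Sigma.mk.injEq, heq_eq_eq] at heq
    obtain ⟨h1, h2⟩ := heq
    have hx : x = x' := by
      have := congrFun h1 i
      rwa [Function.update_self, Function.update_self] at this
    subst hx
    have : τ = τ' := by
      funext j
      by_cases hj : j = i
      · subst hj; exact h2
      · have := congrFun h1 j
        rwa [Function.update_of_ne hj, Function.update_of_ne hj] at this
    subst this
    rfl

lemma lemA (al : ι → Finset C) (T : Finset C) (hT : ∀ i x, x ∉ T → x ∈ al i) (i : ι) :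
    ((Fintype.card C : ℤ) - Fintype.card ι) * MM al T i + ∑ j, (MM al T j : ℤ)
      ≤ (T.card : ℤ) * (Om al).card := by
  classical
  have h := swap_count al T hT i
  have h1 : ((∑ τ ∈ (Om al).filter (fun τ => τ i ∈ T), (freeAlt T τ).card : ℕ) : ℤ)
      = ((Fintype.card C : ℤ) - T.card - Fintype.card ι) * MM al T i
        + ∑ τ ∈ (Om al).filter (fun τ => τ i ∈ T), (kk T τ : ℤ) := by
    push_cast
    rw [Finset.sum_congr rfl (g := fun τ => ((Fintype.card C : ℤ) - T.card - Fintype.card ι)
      + kk T τ)]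
    · rw [Finset.sum_add_distrib, Finset.sum_const, nsmul_eq_mul]
      unfold MM
      ring
    · intro τ hτ
      rw [Finset.mem_filter, mem_Om] at hτ
      exact card_freeAlt T τ hτ.1.1
  have h2 : ((∑ τ ∈ (Om al).filter (fun τ => τ i ∉ T), (specAlt T τ).card : ℕ) : ℤ)
      = (T.card : ℤ) * ((Om al).filter (fun τ => τ i ∉ T)).card
        - ∑ τ ∈ (Om al).filter (fun τ => τ i ∉ T), (kk T τ : ℤ) := by
    push_cast
    rw [Finset.sum_congr rfl (g := fun τ => (T.card : ℤ) - kk T τ)]
    · rw [Finset.sum_sub_distrib, Finset.sum_const, nsmul_eq_mul]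
      ring
    · intro τ hτ
      rw [Finset.mem_filter, mem_Om] at hτ
      have := card_specAlt T τ hτ.1.1
      have : ((specAlt T τ).card : ℤ) + kk T τ = T.card := by exact_mod_cast this
      linarith
  have h3 : ∑ τ ∈ (Om al).filter (fun τ => τ i ∈ T), (kk T τ : ℤ)
      + ∑ τ ∈ (Om al).filter (fun τ => τ i ∉ T), (kk T τ : ℤ)
      = ∑ j, (MM al T j : ℤ) := by
    rw [Finset.sum_filter_add_sum_filter_not]
    unfold kk MM
    simp only [Finset.card_filter]
    push_cast
    rw [Finset.sum_comm]
  have h4 : (((Om al).filter (fun τ => τ i ∉ T)).card : ℤ) = (Om al).card - MM al T i := by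
    have := Finset.card_filter_add_card_filter_not (s := Om al) (p := fun τ => τ i ∈ T)
    unfold MM
    have : (((Om al).filter (fun τ => τ i ∈ T)).card : ℤ)
      + ((Om al).filter (fun τ => τ i ∉ T)).card = (Om al).card := by exact_mod_cast this
    linarith
  have h5 : ((∑ τ ∈ (Om al).filter (fun τ => τ i ∈ T), (freeAlt T τ).card : ℕ) : ℤ)
      ≤ ((∑ τ ∈ (Om al).filter (fun τ => τ i ∉ T), (specAlt T τ).card : ℕ) : ℤ) := by
    exact_mod_cast h
  rw [h1, h2, h4] at h5
  nlinarith [h5, h3]

/-- free colours are symmetric -/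
lemma NN_le (al : ι → Finset C) (T : Finset C) (hT : ∀ i x, x ∉ T → x ∈ al i) (i : ι)
    (c x : C) (hc : c ∉ T) (hx : x ∉ T) : NN al i x ≤ NN al i c := by
  classical
  unfold NN
  refine Finset.card_le_card_of_injOn (fun τ => (Equiv.swap x c) ∘ τ) ?_ ?_
  · intro τ hτ
    simp only [Finset.coe_filter, Set.mem_setOf_eq, mem_Om] at hτ ⊢
    obtain ⟨⟨hinj, hal⟩, hi⟩ := hτ
    refine ⟨⟨(Equiv.swap x c).injective.comp hinj, ?_⟩, ?_⟩
    · intro j
      simp only [Function.comp]
      by_cases h1 : τ j = x
      · rw [h1, Equiv.swap_apply_left]; exact hT j c hc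
      · by_cases h2 : τ j = c
        · rw [h2, Equiv.swap_apply_right]; exact hT j x hx
        · rw [Equiv.swap_apply_of_ne_of_ne h1 h2]; exact hal j
    · simp only [Function.comp]
      rw [hi, Equiv.swap_apply_left]
  · intro τ _ τ' _ h
    funext j
    have := congrFun h j
    exact (Equiv.swap x c).injective this

lemma lemC (al : ι → Finset C) (T : Finset C) (hT : ∀ i x, x ∉ T → x ∈ al i) (i : ι)
    (c : C) (hc : c ∉ T) :
    ((Om al).card : ℤ) - MM al T i ≤ ((Fintype.card C : ℤ) - T.card) * NN al i c := by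
  classical
  have h1 : (((Om al).filter (fun τ => τ i ∉ T)).card : ℤ) = (Om al).card - MM al T i := by
    have := Finset.card_filter_add_card_filter_not (s := Om al) (p := fun τ => τ i ∈ T)
    unfold MM
    have : (((Om al).filter (fun τ => τ i ∈ T)).card : ℤ)
      + ((Om al).filter (fun τ => τ i ∉ T)).card = (Om al).card := by exact_mod_cast this
    linarith
  have h2 : ((Om al).filter (fun τ => τ i ∉ T)).card = ∑ x ∈ Tᶜ, NN al i x := by
    rw [Finset.card_eq_sum_card_fiberwise (f := fun τ => τ i) (t := Tᶜ)]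
    · refine Finset.sum_congr rfl ?_
      intro x hx
      unfold NN
      congr 1
      ext τ
      simp only [Finset.mem_filter, Finset.mem_compl] at hx ⊢
      constructor
      · rintro ⟨⟨h, _⟩, h'⟩; exact ⟨h, h'⟩
      · rintro ⟨h, h'⟩; exact ⟨⟨h, h' ▸ hx⟩, h'⟩
    · intro τ hτ
      simp only [Finset.coe_filter, Set.mem_setOf_eq] at hτ
      simpa using hτ.2
  have h3 : ∑ x ∈ Tᶜ, NN al i x ≤ ∑ x ∈ Tᶜ, NN al i c := by
    refine Finset.sum_le_sum ?_
    intro x hx
    exact NN_le al T hT i c x hc (by simpa using hx)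
  rw [Finset.sum_const, smul_eq_mul] at h3
  have h4 : ((Tᶜ).card : ℤ) = (Fintype.card C : ℤ) - T.card := by
    have := Finset.card_compl_add_card T
    have : ((Tᶜ).card : ℤ) + T.card = Fintype.card C := by exact_mod_cast this
    linarith
  rw [← h1, h2, ← h4]
  exact_mod_cast h3

/-- the weighted inequality -/
lemma lemB (al : ι → Finset C) (T : Finset C) (hT : ∀ i x, x ∉ T → x ∈ al i)
    (w : ι → ℕ) (hw : ∀ i, 1 ≤ w i) (hle : ∑ i, w i ≤ Fintype.card C) :
    (Fintype.card C : ℤ) * ∑ i, (w i : ℤ) * MM al T i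
      ≤ (T.card : ℤ) * (∑ i, (w i : ℤ)) * (Om al).card := by
  classical
  set L : ℤ := (Fintype.card C : ℤ) with hL
  set r : ℤ := (Fintype.card ι : ℤ) with hr
  set s : ℤ := (T.card : ℤ) with hs
  set O : ℤ := ((Om al).card : ℤ) with hO
  set Q : ℤ := ∑ j, (MM al T j : ℤ) with hQ
  set ρ : ℤ := ∑ i, (w i : ℤ) with hρ
  have hA : ∀ i, (L - r) * MM al T i + Q ≤ s * O := fun i => lemA al T hT i
  have hrρ : r ≤ ρ := by
    rw [hr, hρ]
    have : ∑ i : ι, 1 ≤ ∑ i, w i := Finset.sum_le_sum (fun i _ => hw i)
    simp only [Finset.sum_const, Finset.card_univ, smul_eq_mul, mul_one] at this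
    exact_mod_cast this
  have hρL : ρ ≤ L := by rw [hρ, hL]; exact_mod_cast hle
  have hQsum : L * Q ≤ r * (s * O) := by
    have h1 : ∑ i : ι, ((L - r) * MM al T i + Q) ≤ ∑ i : ι, s * O :=
      Finset.sum_le_sum (fun i _ => hA i)
    rw [Finset.sum_add_distrib, ← Finset.mul_sum, Finset.sum_const, Finset.sum_const,
      nsmul_eq_mul, nsmul_eq_mul, Finset.card_univ] at h1
    have h2 : (L - r) * Q + r * Q ≤ r * (s * O) := h1
    nlinarith [h2]
  have hmain : (L - r) * ∑ i, (w i : ℤ) * MM al T i ≤ (L - ρ) * Q + (ρ - r) * (s * O) := by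
    have h1 : ∀ i, (L - r) * ((w i : ℤ) * MM al T i)
        ≤ (L - r) * MM al T i + ((w i : ℤ) - 1) * (s * O - Q) := by
      intro i
      have h2 : (0 : ℤ) ≤ (w i : ℤ) - 1 := by
        have := hw i
        have : (1 : ℤ) ≤ w i := by exact_mod_cast this
        linarith
      have h3 := mul_le_mul_of_nonneg_left (hA i) h2
      nlinarith [h3]
    have h4 : ∑ i, (L - r) * ((w i : ℤ) * MM al T i)
        ≤ ∑ i, ((L - r) * MM al T i + ((w i : ℤ) - 1) * (s * O - Q)) :=
      Finset.sum_le_sum (fun i _ => h1 i)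
    rw [Finset.sum_add_distrib, ← Finset.mul_sum, ← Finset.mul_sum, ← Finset.sum_mul,
      Finset.sum_sub_distrib, Finset.sum_const, nsmul_eq_mul, Finset.card_univ, mul_one] at h4
    have h5 : (L - r) * ∑ i, (w i : ℤ) * MM al T i
        ≤ (L - r) * Q + (ρ - r) * (s * O - Q) := h4
    nlinarith [h5]
  rcases eq_or_lt_of_le (le_trans hrρ hρL) with h | h
  · -- r = L : all weights are one
    have hρr : ρ = r := le_antisymm (h ▸ hρL) hrρ
    have hw1 : ∀ i, (w i : ℤ) = 1 := by
      have h0 : ∑ i, ((w i : ℤ) - 1) = 0 := by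
        rw [Finset.sum_sub_distrib, Finset.sum_const, nsmul_eq_mul, Finset.card_univ, mul_one]
        have : ρ - r = 0 := by rw [hρr]; ring
        exact this
      have h1 := (Finset.sum_eq_zero_iff_of_nonneg (fun i _ => by
        have := hw i
        have : (1 : ℤ) ≤ w i := by exact_mod_cast this
        linarith)).1 h0
      intro i
      have := h1 i (Finset.mem_univ i)
      linarith
    have : ∑ i, (w i : ℤ) * MM al T i = Q := by
      rw [hQ]
      refine Finset.sum_congr rfl ?_
      intro i _
      rw [hw1 i, one_mul]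
    rw [this, hρr]
    nlinarith [hQsum]
  · have hpos : 0 < L - r := by linarith
    have hL0 : 0 ≤ L := by rw [hL]; positivity
    have h1 : (L - r) * (L * ∑ i, (w i : ℤ) * MM al T i)
        ≤ (L - r) * (s * ρ * O) := by
      have h2 := mul_le_mul_of_nonneg_left hmain hL0
      have h3 : 0 ≤ L - ρ := by linarith
      have h4 := mul_le_mul_of_nonneg_left hQsum h3
      nlinarith [h2, h4]
    exact le_of_mul_le_mul_left h1 hpos

/-- the key inequality for restricted injections -/
lemma key_inj (al : ι → Finset C) (T : Finset C) (hT : ∀ i x, x ∉ T → x ∈ al i)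
    (w : ι → ℕ) (hw : ∀ i, 1 ≤ w i) (hle : ∑ i, w i ≤ Fintype.card C)
    (c : C) (hc : c ∉ T) :
    (∑ i, (w i : ℤ)) * (Om al).card ≤ (Fintype.card C : ℤ) * ∑ i, (w i : ℤ) * NN al i c := by
  classical
  have hB := lemB al T hT w hw hle
  have hC := fun i => lemC al T hT i c hc
  have hf : (0 : ℤ) < (Fintype.card C : ℤ) - T.card := by
    have : T.card < Fintype.card C := by
      have h1 : T ⊂ Finset.univ := by
        rw [Finset.ssubset_univ_iff]
        intro h; rw [h] at hc; exact hc (Finset.mem_univ c)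
      have := Finset.card_lt_card h1
      rwa [Finset.card_univ] at this
    have : (T.card : ℤ) < Fintype.card C := by exact_mod_cast this
    linarith
  have h1 : ∑ i, (w i : ℤ) * (((Om al).card : ℤ) - MM al T i)
      ≤ ∑ i, (w i : ℤ) * (((Fintype.card C : ℤ) - T.card) * NN al i c) := by
    refine Finset.sum_le_sum ?_
    intro i _
    exact mul_le_mul_of_nonneg_left (hC i) (by positivity)
  have h2 : ∑ i, (w i : ℤ) * (((Om al).card : ℤ) - MM al T i)
      = (∑ i, (w i : ℤ)) * (Om al).card - ∑ i, (w i : ℤ) * MM al T i := by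
    simp only [mul_sub, Finset.sum_sub_distrib, Finset.sum_mul]
  have h3 : ∑ i, (w i : ℤ) * (((Fintype.card C : ℤ) - T.card) * NN al i c)
      = ((Fintype.card C : ℤ) - T.card) * ∑ i, (w i : ℤ) * NN al i c := by
    rw [Finset.mul_sum]
    refine Finset.sum_congr rfl ?_
    intro i _; ring
  rw [h2, h3] at h1
  have hL0 : (0 : ℤ) ≤ (Fintype.card C : ℤ) := by positivity
  have h4 := mul_le_mul_of_nonneg_left h1 hL0
  refine le_of_mul_le_mul_left ?_ hf
  nlinarith [h4, hB]

end inj

end Pool.Agent.N393.Chrom
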