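import Pool.Agent.N393.ChromCol

set_option autoImplicit false

/-! The clique bound for the ratio of consecutive values of the chromatic polynomial. -/

namespace Pool.Agent.N393.Chrom

open Finset

lemma card_col_all {V : Type} [Fintype V] [DecidableEq V] (G : SimpleGraph V) (m : ℕ)
    (c : Fin m) : Nat.card (G.Coloring (Fin m)) = (Av G ∅ c).card := by
  classical
  have e : G.Coloring (Fin m) ≃ {φ : V → Fin m // φ ∈ Av G ∅ c} :=
    { toFun := fun D => ⟨fun v => D v, by
        rw [mem_Av]; exact ⟨fun v w h => D.valid h, by simp⟩⟩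
      invFun := fun φ => SimpleGraph.Coloring.mk φ.1 (fun {v w} h => by
        have := φ.2
        rw [mem_Av] at this
        exact this.1 v w h)
      left_inv := fun D => by ext v; rfl
      right_inv := fun φ => by ext v; rfl }
  rw [Nat.card_congr e, Nat.card_eq_fintype_card, Fintype.card_coe]

lemma card_col_pred {V : Type} [Fintype V] [DecidableEq V] (G : SimpleGraph V) (m : ℕ) :
    Nat.card (G.Coloring (Fin m)) = (Av G Finset.univ (Fin.last m)).card := by
  classical
  have e : G.Coloring (Fin m) ≃ {φ : V → Fin (m + 1) // φ ∈ Av G Finset.univ (Fin.last m)} :=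
    { toFun := fun D => ⟨fun v => (D v).castSucc, by
        rw [mem_Av]
        refine ⟨fun v w h h' => D.valid h (Fin.castSucc_injective _ h'), fun v _ => ?_⟩
        exact (Fin.castSucc_lt_last _).ne⟩
      invFun := fun φ => SimpleGraph.Coloring.mk (fun v => (φ.1 v).castPred (by
        have := φ.2
        rw [mem_Av] at this
        exact this.2 v (Finset.mem_univ v))) (fun {v w} h h' => by
        have := φ.2
        rw [mem_Av] at this
        refine this.1 v w h ?_
        exact Fin.castPred_inj.1 h')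
      left_inv := fun D => by
        ext v
        rfl
      right_inv := fun φ => by
        ext v
        rfl }
  rw [Nat.card_congr e, Nat.card_eq_fintype_card, Fintype.card_coe]

/-- the clique bound for every clique and every `lam ≥ 1` with `|V \ K| ≤ lam` -/
theorem clique_ratio {V : Type} [Fintype V] [DecidableEq V] (G : SimpleGraph V) (m : ℕ)
    (K : Finset V) (hK : G.IsClique (K : Set V)) (hle : (Kᶜ).card ≤ m + 1)
    (hKm : K.card ≤ m + 1) :
    (Nat.card (G.Coloring (Fin m)) : ℝ) / (Nat.card (G.Coloring (Fin (m + 1))) : ℝ)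
      ≤ (1 - (K.card : ℝ) / ((m + 1 : ℕ) : ℝ)) * (1 - 1 / ((m + 1 : ℕ) : ℝ)) ^ (Kᶜ).card := by
  classical
  have h := clique_count G K hK (Fin.last m) (by rw [Fintype.card_fin]; exact hle)
  rw [Fintype.card_fin, ← card_col_pred G m, ← card_col_all G (m + 1) (Fin.last m)] at h
  set a := Nat.card (G.Coloring (Fin m))
  set b := Nat.card (G.Coloring (Fin (m + 1)))
  set L : ℝ := ((m + 1 : ℕ) : ℝ) with hL
  have hLpos : 0 < L := by rw [hL]; positivity
  have h' : L ^ ((Kᶜ).card + 1) * (a : ℝ) ≤ (L - 1) ^ (Kᶜ).card * ((L - K.card) * (b : ℝ)) := by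
    have := h
    have h2 : (((((m + 1 : ℕ) : ℤ)) ^ ((Kᶜ).card + 1) * (a : ℤ) : ℤ) : ℝ)
      ≤ ((((((m + 1 : ℕ) : ℤ)) - 1) ^ (Kᶜ).card * (((((m + 1 : ℕ) : ℤ)) - K.card) * (b : ℤ)) : ℤ) : ℝ)
      := by exact_mod_cast h
    rw [hL]
    push_cast at h2 ⊢
    exact h2
  have hk : (K.card : ℝ) ≤ L := by rw [hL]; exact_mod_cast hKm
  have hL1 : 1 ≤ L := by
    rw [hL]; push_cast
    have : (0 : ℝ) ≤ m := by positivity
    linarith
  rcases Nat.eq_zero_or_pos b with hb | hb
  · rw [hb]
    simp only [Nat.cast_zero, div_zero]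
    refine mul_nonneg ?_ (pow_nonneg ?_ _)
    · rw [sub_nonneg, div_le_one hLpos]; exact hk
    · rw [sub_nonneg, div_le_one hLpos]; exact hL1
  · have hb' : (0 : ℝ) < b := by exact_mod_cast hb
    rw [div_le_iff₀ hb']
    have e1 : (1 - (K.card : ℝ) / L) = (L - K.card) / L := by
      field_simp
    have e2 : (1 - 1 / L) = (L - 1) / L := by
      field_simp
    rw [e1, e2, div_pow, div_mul_div_comm, ← pow_succ' L, div_mul_eq_mul_div,
      le_div_iff₀ (by positivity)]
    calc (a : ℝ) * L ^ ((Kᶜ).card + 1) = L ^ ((Kᶜ).card + 1) * (a : ℝ) := by ring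
      _ ≤ _ := h'
      _ = _ := by ring

end Pool.Agent.N393.Chrom
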